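import Pool.Agent.Helper94_DMI.Stmts

/-!
Squad DMI, module FUS (helper20): the fusion argument.
-/

set_option autoImplicit false

namespace Pool.Agent.DMI.H20

open Set Topology TopologicalSpace Filter

/-- the point of `Z` given by a finite set -/
noncomputable def zf (s : Finset ℕ) : Z :=
  ⟨fun i => decide (i ∈ s), by
    refine summable_of_ne_finset_zero (s := s) ?_
    intro i hi
    simp [wt, hi]⟩

theorem zf_apply (s : Finset ℕ) (i : ℕ) : (zf s).1 i = decide (i ∈ s) := rfl

theorem tendsto_insert (s : Finset ℕ) :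
    Tendsto (fun j => zf (insert j s)) atTop (𝓝 (zf s)) := by
  rw [tendsto_subtype_rng]
  rw [tendsto_pi_nhds]
  intro i
  refine tendsto_const_nhds.congr' ?_
  filter_upwards [eventually_gt_atTop i] with j hj
  have hne : i ≠ j := by omega
  simp [zf, hne]

theorem exists_near (E : Set ℝ) (hE : E.Nonempty) (x δ : ℝ) (hδ : 0 < δ) :
    ∃ t ∈ E, ∀ t' ∈ E, |t - x| < |t' - x| + δ := by
  obtain ⟨t, ht, h⟩ := (Metric.infDist_lt_iff (x := x) hE).1
    (show Metric.infDist x E < Metric.infDist x E + δ by linarith)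
  refine ⟨t, ht, fun t' ht' => ?_⟩
  have h1 := Metric.infDist_le_dist_of_mem (x := x) ht'
  rw [Real.dist_eq] at h h1
  rw [abs_sub_comm t x, abs_sub_comm t' x]
  linarith

open Classical in
/-- selection on finite sets -/
noncomputable def gg (E : Finset ℕ → Set ℝ) (hE : ∀ s, (E s).Nonempty) (s : Finset ℕ) : ℝ :=
  if h : s.Nonempty then
    (exists_near (E s) (hE s) (gg E hE (s.erase (s.max' h))) ((1 / 2 : ℝ) ^ (s.max' h))
      (by positivity)).choose
  else (hE s).choose
termination_by s.card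
decreasing_by exact Finset.card_erase_lt_of_mem (s.max'_mem h)

theorem gg_mem (E : Finset ℕ → Set ℝ) (hE : ∀ s, (E s).Nonempty) (s : Finset ℕ) :
    gg E hE s ∈ E s := by
  rw [gg]
  by_cases h : s.Nonempty
  · rw [dif_pos h]
    exact (exists_near (E s) (hE s) (gg E hE (s.erase (s.max' h))) ((1 / 2 : ℝ) ^ (s.max' h))
      (by positivity)).choose_spec.1
  · rw [dif_neg h]
    exact (hE s).choose_spec

theorem gg_spec (E : Finset ℕ → Set ℝ) (hE : ∀ s, (E s).Nonempty) (s : Finset ℕ)
    (h : s.Nonempty) (t' : ℝ) (ht' : t' ∈ E s) :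
    |gg E hE s - gg E hE (s.erase (s.max' h))| <
      |t' - gg E hE (s.erase (s.max' h))| + (1 / 2 : ℝ) ^ (s.max' h) := by
  have hkey := (exists_near (E s) (hE s) (gg E hE (s.erase (s.max' h)))
      ((1 / 2 : ℝ) ^ (s.max' h)) (by positivity)).choose_spec.2 t' ht'
  have e : gg E hE s = (exists_near (E s) (hE s) (gg E hE (s.erase (s.max' h)))
      ((1 / 2 : ℝ) ^ (s.max' h)) (by positivity)).choose := by
    rw [gg, dif_pos h]
  rw [e]
  exact hkey

theorem gg_insert (E : Finset ℕ → Set ℝ) (hE : ∀ s, (E s).Nonempty) (s : Finset ℕ) (j : ℕ)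
    (hj : ∀ i ∈ s, i < j) (t' : ℝ) (ht' : t' ∈ E (insert j s)) :
    |gg E hE (insert j s) - gg E hE s| < |t' - gg E hE s| + (1 / 2 : ℝ) ^ j := by
  have hne : (insert j s).Nonempty := Finset.insert_nonempty j s
  have hmax : (insert j s).max' hne = j := by
    apply le_antisymm
    · apply Finset.max'_le
      intro y hy
      rcases Finset.mem_insert.1 hy with h | h
      · exact h.le
      · exact (hj y h).le
    · exact Finset.le_max' _ _ (Finset.mem_insert_self j s)
  have hnot : j ∉ s := fun h => lt_irrefl _ (hj j h)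
  have her : (insert j s).erase ((insert j s).max' hne) = s := by
    rw [hmax, Finset.erase_insert hnot]
  have hkey := gg_spec E hE (insert j s) hne t' ht'
  rw [her, hmax] at hkey
  exact hkey

theorem exists_next (g : Finset ℕ → ℝ)
    (hg : ∀ s : Finset ℕ, Tendsto (fun j => g (insert j s)) atTop (𝓝 (g s)))
    (p : ℕ) (S : Finset ℕ) :
    ∃ j : ℕ, (∀ i ∈ S, i < j) ∧ j.unpair.1 = p.unpair.1 ∧
      ∀ s, s ⊆ S → |g (insert j s) - g s| < eta (S.sup id) / 4 := by
  have hpos : 0 < eta (S.sup id) / 4 := by unfold eta; positivity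
  have h1 : ∀ᶠ j in atTop, ∀ s ∈ S.powerset, |g (insert j s) - g s| < eta (S.sup id) / 4 := by
    rw [Filter.eventually_all_finset]
    intro s _
    have := (Metric.tendsto_nhds.1 (hg s)) _ hpos
    simpa only [Real.dist_eq] using this
  have h2 : ∀ᶠ j in atTop, ∀ i ∈ S, i < j := by
    rw [Filter.eventually_all_finset]
    intro i _
    exact eventually_gt_atTop i
  obtain ⟨N, hN⟩ := eventually_atTop.1 (h1.and h2)
  refine ⟨Nat.pair p.unpair.1 N, (hN _ (Nat.right_le_pair _ _)).2, ?_, ?_⟩
  · rw [Nat.unpair_pair]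
  · intro s hs
    exact (hN _ (Nat.right_le_pair _ _)).1 s (Finset.mem_powerset.2 hs)

/-- the main combinatorial construction -/
theorem exists_seq (g : Finset ℕ → ℝ)
    (hg : ∀ s : Finset ℕ, Tendsto (fun j => g (insert j s)) atTop (𝓝 (g s))) :
    ∃ (Sq : ℕ → Finset ℕ) (jj : ℕ → ℕ), Sq 0 = ∅ ∧ (∀ p, Sq (p + 1) = insert (jj p) (Sq p)) ∧
      (∀ p, ∀ i ∈ Sq p, i < jj p) ∧ (∀ p, (jj p).unpair.1 = p.unpair.1) ∧
      ∀ p s, s ⊆ Sq p → |g (insert (jj p) s) - g s| < eta ((Sq p).sup id) / 4 := by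
  choose nx h1 h2 h3 using exists_next g hg
  let Sq : ℕ → Finset ℕ := fun p => Nat.rec ∅ (fun q S => insert (nx q S) S) p
  refine ⟨Sq, fun p => nx p (Sq p), rfl, fun p => rfl, fun p => h1 p (Sq p), fun p => h2 p (Sq p),
    fun p => h3 p (Sq p)⟩

theorem fus : FusStmt := by
  intro E L hE hEL hlsc hcl
  -- the selection on finite sets
  let g : Finset ℕ → ℝ := gg (fun s => E (zf s)) (fun s => hE (zf s))
  have hgE : ∀ s, g s ∈ E (zf s) := gg_mem (fun s => E (zf s)) (fun s => hE (zf s))
  have hg : ∀ s : Finset ℕ, Tendsto (fun j => g (insert j s)) atTop (𝓝 (g s)) := by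
    intro s
    rw [Metric.tendsto_nhds]
    intro ε hε
    have h1 := (tendsto_insert s).eventually (hlsc (zf s) (g s) (hgE s) (ε / 2) (by positivity))
    have h2 : ∀ᶠ j : ℕ in atTop, (1 / 2 : ℝ) ^ j < ε / 2 :=
      (tendsto_order.1 (tendsto_pow_atTop_nhds_zero_of_lt_one (by norm_num : (0 : ℝ) ≤ 1 / 2)
        (by norm_num))).2 _ (by positivity)
    have h3 : ∀ᶠ j in atTop, ∀ i ∈ s, i < j := by
      rw [Filter.eventually_all_finset]
      intro i _
      exact eventually_gt_atTop i
    filter_upwards [h1, h2, h3] with j hj1 hj2 hj3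
    obtain ⟨t', ht', hlt⟩ := hj1
    have h4 := gg_insert (fun s => E (zf s)) (fun s => hE (zf s)) s j hj3 t' ht'
    rw [Real.dist_eq]
    have h5 : |g (insert j s) - g s| < |t' - g s| + (1 / 2 : ℝ) ^ j := h4
    linarith
  obtain ⟨Sq, jj, hS0, hS1, hlt, hcls, hbd⟩ := exists_seq g hg
  have hjmem : ∀ p, jj p ∈ Sq (p + 1) := fun p => by rw [hS1]; exact Finset.mem_insert_self _ _
  have hmono1 : ∀ p, Sq p ⊆ Sq (p + 1) := fun p => by rw [hS1]; exact Finset.subset_insert _ _
  have hmono : Monotone Sq := monotone_nat_of_le_succ hmono1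
  have hjj : ∀ p, jj p < jj (p + 1) := fun p => hlt (p + 1) (jj p) (hjmem p)
  have hjm : StrictMono jj := strictMono_nat_of_lt_succ hjj
  have hjle : ∀ p, p ≤ jj p := fun p => hjm.le_apply
  have hjadd : ∀ p k, jj p + k ≤ jj (p + k) := by
    intro p k
    induction k with
    | zero => simp
    | succ k ih =>
      have := hjj (p + k)
      have e : p + (k + 1) = p + k + 1 := by ring
      rw [e]
      omega
  have hsup : ∀ p, (Sq (p + 1)).sup id = jj p := by
    intro p
    apply le_antisymm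
    · apply Finset.sup_le
      intro i hi
      rw [hS1] at hi
      rcases Finset.mem_insert.1 hi with h | h
      · exact h.le
      · exact (hlt p i h).le
    · exact Finset.le_sup (f := id) (hjmem p)
  have hSle : ∀ p, ∀ i ∈ Sq (p + 1), i ≤ jj p := by
    intro p i hi
    rw [hS1] at hi
    rcases Finset.mem_insert.1 hi with h | h
    · exact h.le
    · exact (hlt p i h).le
  have hex : ∀ p, ∀ i ∈ Sq p, ∃ q, i = jj q := by
    intro p
    induction p with
    | zero => intro i hi; rw [hS0] at hi; simp at hi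
    | succ p ih =>
      intro i hi
      rw [hS1] at hi
      rcases Finset.mem_insert.1 hi with h | h
      · exact ⟨p, h⟩
      · exact ih i h
  -- the sequence of values
  let u : (ℕ → Bool) → ℕ → ℝ := fun z p => g ((Sq p).filter (fun i => z i = true))
  have hstep : ∀ z p, |u z (p + 1) - u z p| ≤ eta ((Sq p).sup id) / 4 := by
    intro z p
    have hsub : (Sq p).filter (fun i => z i = true) ⊆ Sq p := Finset.filter_subset _ _
    have hpos : 0 ≤ eta ((Sq p).sup id) / 4 := by unfold eta; positivity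
    show |g ((Sq (p + 1)).filter (fun i => z i = true)) - g ((Sq p).filter (fun i => z i = true))| ≤ _
    rw [hS1, Finset.filter_insert]
    by_cases h : z (jj p) = true
    · rw [if_pos h]
      exact (hbd p _ hsub).le
    · rw [if_neg h]
      simpa using hpos
  have hgeo : ∀ z q n, dist (u z (q + 1 + n)) (u z (q + 1 + (n + 1))) ≤
      eta (jj q) / 4 * (1 / 8 : ℝ) ^ n := by
    intro z q n
    rw [dist_comm, Real.dist_eq]
    have h1 := hstep z (q + 1 + n)
    have e1 : q + 1 + n = (q + n) + 1 := by ring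
    rw [show q + 1 + (n + 1) = q + 1 + n + 1 by ring]
    refine h1.trans ?_
    rw [e1, hsup]
    unfold eta
    have h2 : (1 / 8 : ℝ) ^ (jj (q + n) + 1) ≤ (1 / 8 : ℝ) ^ (jj q + n + 1) :=
      pow_le_pow_of_le_one (by norm_num) (by norm_num) (by have := hjadd q n; omega)
    have h3 : (1 / 8 : ℝ) ^ (jj q + n + 1) = (1 / 8 : ℝ) ^ (jj q + 1) * (1 / 8 : ℝ) ^ n := by ring
    nlinarith [h2, h3]
  have hlim : ∀ z, ∃ a, Tendsto (u z) atTop (𝓝 a) := by
    intro z
    have hc : CauchySeq (fun n => u z (0 + 1 + n)) :=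
      cauchySeq_of_le_geometric (1 / 8 : ℝ) (eta (jj 0) / 4) (by norm_num) (hgeo z 0)
    obtain ⟨a, ha⟩ := cauchySeq_tendsto_of_complete hc
    refine ⟨a, ?_⟩
    rw [← tendsto_add_atTop_iff_nat 1]
    refine ha.congr ?_
    intro n
    rw [show 0 + 1 + n = n + 1 by ring]
  choose l hl using hlim
  have hdist : ∀ z q, |u z (q + 1) - l z| ≤ eta (jj q) / 2 := by
    intro z q
    have hta : Tendsto (fun n => u z (q + 1 + n)) atTop (𝓝 (l z)) := by
      have h1 := (tendsto_add_atTop_iff_nat (q + 1)).2 (hl z)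
      refine h1.congr ?_
      intro n
      rw [add_comm]
    have h2 := dist_le_of_le_geometric_of_tendsto₀ (1 / 8 : ℝ) (eta (jj q) / 4) (by norm_num)
      (hgeo z q) hta
    rw [Real.dist_eq] at h2
    have hpos : 0 < eta (jj q) := by unfold eta; positivity
    have h3 : u z (q + 1 + 0) = u z (q + 1) := by rw [add_zero]
    rw [h3] at h2
    refine h2.trans ?_
    rw [div_le_div_iff₀ (by norm_num) (by norm_num)]
    nlinarith
  refine ⟨⟨{i | ∃ p, i ∈ Sq p}, ?_, l, ?_⟩, ?_⟩
  · -- full
    intro m N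
    refine ⟨jj (Nat.pair m N), ⟨_, hjmem _⟩, ?_, ?_⟩
    · exact (Nat.right_le_pair m N).trans (hjle _)
    · rw [hcls, Nat.unpair_pair]
  · -- modulus
    rintro j ⟨p, hj⟩ z z' hzz
    obtain ⟨q, rfl⟩ := hex p j hj
    have he : u z (q + 1) = u z' (q + 1) := by
      show g _ = g _
      congr 1
      apply Finset.filter_congr
      intro i hi
      rw [hzz i ⟨_, hi⟩ (hSle q i hi)]
    have h1 := hdist z q
    have h2 := hdist z' q
    rw [he] at h1
    rw [abs_le] at h1 h2 ⊢
    constructor <;> linarith [h1.1, h1.2, h2.1, h2.2]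
  · -- membership
    intro z hz
    have hz' : ∀ i, z.1 i = true → ∃ p, i ∈ Sq p := hz
    show l z.1 ∈ L z
    have hzt : Tendsto (fun p => zf ((Sq p).filter (fun i => z.1 i = true))) atTop (𝓝 z) := by
      rw [tendsto_subtype_rng, tendsto_pi_nhds]
      intro i
      refine tendsto_const_nhds.congr' ?_
      by_cases h : z.1 i = true
      · obtain ⟨p, hp⟩ := hz' i h
        filter_upwards [eventually_ge_atTop p] with q hq
        have : i ∈ Sq q := hmono hq hp
        simp [zf, this, h]
      · filter_upwards with q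
        simp only [Bool.not_eq_true] at h
        simp [zf, h]
    have hpt : Tendsto (fun p => (u z.1 p, zf ((Sq p).filter (fun i => z.1 i = true)))) atTop
        (𝓝 (l z.1, z)) := (hl z.1).prodMk_nhds hzt
    have := hcl.mem_of_tendsto hpt (Eventually.of_forall fun p => by
      show u z.1 p ∈ L _
      exact hEL _ (hgE _))
    exact this

end Pool.Agent.DMI.H20
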